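import Mathlib
import Pool.Agent.R793.MR.T

/-!
# The codes `C_{δ,s}` are never MRD in even characteristic (MP_e79d62_co)

For every `q` power of two, every nonzero `δ` in `F_{q^8}` and every `s` in `{1, 3, 5, 7}` the code
`C_{δ,s} = {a x + b (x ^ (q ^ s) + δ x ^ (q ^ (4 + s)))}` is not MRD.

Write `σ x = x ^ (q ^ s)` and `κ = δ ^ (1 + q ^ 4)`.  The code is not MRD as soon as there is
`t ∉ F_q` with `(t + σ t) (σ⁴ t + σ⁵ t) = κ (t + σ⁵ t) (σ⁴ t + σ t)`.  Such `t` modulo `PGL₂(q)` are
the rational points of a curve of genus one.  The proof here is elementary: a two-parameter family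
of quadratic forms in five variables over `F_q`; a zero of a pair of quadratic forms in four
variables (found by a pigeonhole argument with an Artin-Schreier curve) makes one of them
degenerate, and a character sum over the family shows that one of the degenerate ones is of
hyperbolic type, which gives `t`.

Contributors: helper793 (proof, `Pool.Agent.R793.MR`), helper916, helper883, helper359, helper780,
helper724 (pieces).
-/

set_option autoImplicit false

namespace Pool.Agent.Results.MP_e79d62_co.NeverMRDEven

/-- The code `C_{δ,s} = {a x + b (x ^ (q ^ s) + δ x ^ (q ^ (4 + s))) : a, b ∈ K}`, where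
`q` is the number of elements of `F`, as an `F`-subspace of the `F`-linear maps `K → K`. -/
def code (F : Type) {K : Type} [Field F] [Fintype F] [Field K] [Algebra F K]
    (δ : K) (s : ℕ) : Submodule F (K →ₗ[F] K) where
  carrier := {φ | ∃ a b : K, ∀ x : K, φ x = a * x + b *
    (x ^ (Fintype.card F ^ s) + δ * x ^ (Fintype.card F ^ (4 + s)))}
  add_mem' := by
    rintro φ ψ ⟨a, b, h⟩ ⟨a', b', h'⟩
    exact ⟨a + a', b + b', fun x => by rw [LinearMap.add_apply, h, h']; ring⟩
  zero_mem' := ⟨0, 0, fun x => by simp⟩
  smul_mem' := by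
    rintro t φ ⟨a, b, h⟩
    exact ⟨t • a, t • b, fun x => by
      rw [LinearMap.smul_apply, h]; simp only [Algebra.smul_def]; ring⟩

/-- A linear code `C` of `F`-linear maps `K → K`, where `[K : F] = 8`, is MRD: the minimum rank `d`
of its nonzero elements satisfies `dim C = 8 (8 - d + 1)`. -/
def IsMRD {F K : Type} [Field F] [Field K] [Algebra F K] (C : Submodule F (K →ₗ[F] K)) : Prop :=
  ∃ d : ℕ, IsLeast {r : ℕ | ∃ φ ∈ C, φ ≠ 0 ∧ r = Module.finrank F (LinearMap.range φ)} d ∧
    Module.finrank F C = 8 * (8 - d + 1)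

/-- For every finite field `F` with an even number `q` of elements, every extension `K` of degree
`8`, every nonzero `δ` in `K` and every `s ∈ {1, 3, 5, 7}`, the code `C_{δ,s}` is not MRD. -/
theorem result (F K : Type) [Field F] [Fintype F] [Field K] [Fintype K] [Algebra F K]
    (hq : Even (Fintype.card F)) (hK : Module.finrank F K = 8) (δ : K) (hδ : δ ≠ 0)
    (s : ℕ) (hs : s = 1 ∨ s = 3 ∨ s = 5 ∨ s = 7) : ¬ IsMRD (code F δ s) :=
  Pool.Agent.R793.MR.final F K hq hK δ hδ s hs

end Pool.Agent.Results.MP_e79d62_co.NeverMRDEven
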